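import Pool.Agent.H4.Rep
import Pool.Agent.H4.Sig3

set_option autoImplicit false

namespace Pool.Agent.Results.MP_722fe9_lc.Hard

open Pool.Agent.H11.PT Pool.Agent.H4.Sig Pool.Agent.H4.Rep SimpleGraph

/-- locating-dominating set -/
def IsLD {V : Type} (G : SimpleGraph V) (D : Set V) : Prop :=
  (∀ v ∉ D, ∃ u ∈ D, G.Adj v u) ∧
    ∀ u ∉ D, ∀ v ∉ D, u ≠ v → G.neighborSet u ∩ D ≠ G.neighborSet v ∩ D

/-- `C_L(G) ≥ k`: a partition into `m ≥ k` nonempty parts (the fibres of `c`), no part an LD-set,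
every part forming an LD-set together with some other part -/
def CLge {V : Type} (G : SimpleGraph V) (k : ℕ) : Prop :=
  ∃ (m : ℕ) (c : V → Fin m), k ≤ m ∧ Function.Surjective c ∧ (∀ i, ¬ IsLD G {v | c v = i}) ∧
    ∀ i, ∃ j, j ≠ i ∧ IsLD G ({v | c v = i} ∪ {v | c v = j})

theorem ld_iff {V : Type} (G : SimpleGraph V) (D : Set V) : IsLD G D ↔
    (∀ v ∉ D, ∃ u ∈ D, G.Adj v u) ∧
      ∀ u ∉ D, ∀ v ∉ D, u ≠ v → ∃ w ∈ D, ¬(G.Adj u w ↔ G.Adj v w) := by
  refine and_congr Iff.rfl (forall₂_congr fun u _ => forall₂_congr fun v _ => imp_congr Iff.rfl ?_)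
  simp only [ne_eq, Set.ext_iff, Set.mem_inter_iff, mem_neighborSet]
  grind

theorem ld_iso {V W : Type} {G : SimpleGraph V} {H : SimpleGraph W} (e : G ≃g H) (D : Set W)
    (h : IsLD H D) : IsLD G (e ⁻¹' D) := by
  rw [ld_iff] at *
  refine ⟨fun v hv => ?_, fun u hu v hv ne => ?_⟩
  · obtain ⟨u, h1, h2⟩ := h.1 _ hv
    exact ⟨e.symm u, by simpa, e.map_adj_iff.1 (by simpa)⟩
  · obtain ⟨w, h1, h2⟩ := h.2 _ hu _ hv (e.injective.ne ne)
    exact ⟨e.symm w, by simpa, by rw [← e.map_adj_iff, ← e.map_adj_iff]; simpa using h2⟩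

theorem cl_iso {V W : Type} {G : SimpleGraph V} {H : SimpleGraph W} (e : G ≃g H) {k : ℕ}
    (h : CLge H k) : CLge G k := by
  obtain ⟨m, c, h1, h2, h3, h4⟩ := h
  refine ⟨m, c ∘ e, h1, h2.comp e.surjective, fun i hi => h3 i ?_, fun i => ?_⟩
  · simpa using ld_iso e.symm _ hi
  · obtain ⟨j, g1, g2⟩ := h4 i
    exact ⟨j, g1, ld_iso e _ g2⟩

abbrev Cl := ℕ × ℕ × ℕ

def cv (φ : List Cl) (j : ℕ) : List ℕ :=
  if j = 0 then [0, 1, 2, 3] else if j = 1 then [4, 5, 6, 7] else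
    [(φ.getD (j - 2) (0, 0, 0)).1 + 8, (φ.getD (j - 2) (0, 0, 0)).2.1 + 8,
      (φ.getD (j - 2) (0, 0, 0)).2.2 + 8]

def vs (φ : List Cl) : List Cl :=
  [0] ×ˢ List.range (nv φ + 8) ×ˢ List.range 5 ++ [1] ×ˢ List.range (φ.length + 2) ×ˢ List.range 6

def ad (φ : List Cl) (u v : Cl) : Bool :=
  decide ((u.1 = 0 ∧ v.1 = 0 ∧ u.2.2 = 0 ∧ (v.2.2 = 0 ∨ u.2.1 = v.2.1)) ∨
    (u.1 = 0 ∧ v.1 = 0 ∧ u.2.1 = v.2.1 ∧ (u.2.2 = 1 ∧ v.2.2 = 2 ∨ u.2.2 = 3 ∧ v.2.2 = 4)) ∨
    (u.1 = 1 ∧ v.1 = 0 ∧ u.2.2 < 2 ∧ v.2.2 = 0 ∧ v.2.1 ∈ cv φ u.2.1) ∨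
    (u.1 = 1 ∧ v.1 = 1 ∧ u.2.1 = v.2.1 ∧ u.2.2 < 4 ∧ 4 ≤ v.2.2))

theorem mem_vs {φ : List Cl} {a x i : ℕ} : (a, x, i) ∈ vs φ ↔
    (a = 0 ∧ x < nv φ + 8 ∧ i < 5) ∨ (a = 1 ∧ x < φ.length + 2 ∧ i < 6) := by
  simp [vs]; omega

theorem nd (φ : List Cl) : (vs φ).Nodup := by
  refine List.Nodup.append ((List.nodup_singleton _).product (List.nodup_range.product
    List.nodup_range)) ((List.nodup_singleton _).product (List.nodup_range.product
    List.nodup_range)) ?_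
  rintro ⟨a, x, i⟩ h1 h2
  simp at h1 h2
  omega

theorem cv_lt {φ : List Cl} {j x : ℕ} (h : x ∈ cv φ j) : x < nv φ + 8 := by
  have : (φ.getD (j - 2) (0, 0, 0)).1 + (φ.getD (j - 2) (0, 0, 0)).2.1 +
      (φ.getD (j - 2) (0, 0, 0)).2.2 < nv φ := by
    rcases lt_or_ge (j - 2) φ.length with h | h
    · rw [List.getD_eq_getElem _ _ h]
      exact Nat.lt_succ_of_le (List.single_le_sum (by simp) _
        (List.mem_map_of_mem (f := fun c : Cl => c.1 + c.2.1 + c.2.2) (List.getElem_mem h)))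
    · rw [List.getD_eq_default _ _ h]; simp [nv]
  unfold cv at h
  split_ifs at h <;> simp only [List.mem_cons, List.not_mem_nil, or_false] at h <;> omega

theorem cv_len (φ : List Cl) (j : ℕ) : (cv φ j).length ≤ 4 ∧ ∃ x, x ∈ cv φ j := by
  unfold cv; split_ifs <;> simp

attribute [local irreducible] nv vs

def T (φ : List Cl) (d : Cl → Prop) : Prop :=
  (∀ x < nv φ + 8, (d (0, x, 1) ∨ d (0, x, 2)) ∧ (d (0, x, 3) ∨ d (0, x, 4))) ∧
  ∀ j < φ.length + 2, (d (1, j, 0) ∨ d (1, j, 1)) ∧ (d (1, j, 2) ∨ d (1, j, 3)) ∧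
    (d (1, j, 4) ∨ d (1, j, 5)) ∧
    ∀ a < 2, ∀ b < 2, d (1, j, a) ∨ d (1, j, b + 2) ∨ ∃ x ∈ cv φ j, d (0, x, 0)

def A (φ : List Cl) (u v : Cl) : Prop := u ≠ v ∧ (ad φ u v = true ∨ ad φ v u = true)

theorem key (φ : List Cl) (d : Cl → Prop) : IsLD (lg (vs φ) (ad φ)) {v | d v.1} ↔ T φ d := by
  have : IsLD (lg (vs φ) (ad φ)) {v | d v.1} ↔ (∀ v ∈ vs φ, ¬d v → ∃ u ∈ vs φ, d u ∧ A φ v u) ∧
      ∀ u ∈ vs φ, ¬d u → ∀ v ∈ vs φ, ¬d v → u ≠ v →
        ∃ w ∈ vs φ, d w ∧ ¬(A φ u w ↔ A φ v w) := by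
    simp only [ld_iff, lg_adj, A, Subtype.forall, Subtype.exists, Set.mem_setOf_eq, ne_eq,
      Subtype.mk.injEq, exists_prop, exists_and_left]
  rw [this]
  constructor
  · rintro ⟨-, h⟩
    have h' : ∀ a x i b y k, (a, x, i) ∈ vs φ → (b, y, k) ∈ vs φ → (a, x, i) ≠ (b, y, k) →
        d (a, x, i) ∨ d (b, y, k) ∨ ∃ c z l, (c, z, l) ∈ vs φ ∧ d (c, z, l) ∧
          ¬(A φ (a, x, i) (c, z, l) ↔ A φ (b, y, k) (c, z, l)) := by
      intro a x i b y k h1 h2 h3
      by_contra! h4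
      obtain ⟨⟨c, z, l⟩, w⟩ := h _ h1 h4.1 _ h2 h4.2.1 h3
      exact w.2.2 (h4.2.2 c z l w.1 w.2.1)
    simp only [mem_vs, A, ad, decide_eq_true_eq, ne_eq, Prod.mk.injEq] at h'
    refine ⟨fun x hx => ⟨?_, ?_⟩, fun j hj => ⟨?_, ?_, ?_, fun a ha b hb => ?_⟩⟩
    · have := h' 0 x 1 0 x 2 (by omega) (by omega) (by omega); grind
    · have := h' 0 x 3 0 x 4 (by omega) (by omega) (by omega); grind
    · have := h' 1 j 0 1 j 1 (by omega) (by omega) (by omega); grind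
    · have := h' 1 j 2 1 j 3 (by omega) (by omega) (by omega); grind
    · have := h' 1 j 4 1 j 5 (by omega) (by omega) (by omega); grind
    · have := h' 1 j a 1 j (b + 2) (by omega) (by omega) (by omega); grind
  · rintro ⟨h1, h2⟩
    have k : ∀ a x i, (a, x, i) ∈ vs φ → ¬d (a, x, i) → ∃ l, (a, x, l) ∈ vs φ ∧ d (a, x, l) ∧
        A φ (a, x, i) (a, x, l) ∧ ∀ b y k, (b, y, k) ∈ vs φ → ¬d (b, y, k) →
          A φ (b, y, k) (a, x, l) → (b, y, k) = (a, x, i) ∨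
            (b = 0 ∧ a = 0 ∧ x = y ∧ (i = 0 ∨ k = 0)) ∨
            (b = 1 ∧ a = 1 ∧ x = y ∧ (i < 2 ∧ 2 ≤ k ∧ k < 4 ∨ k < 2 ∧ 2 ≤ i ∧ i < 4)) := by
      intro a x i hv hd
      simp only [mem_vs, A, ad, decide_eq_true_eq, ne_eq, Prod.mk.injEq] at *
      rcases hv with ⟨rfl, hx, hi⟩ | ⟨rfl, hx, hi⟩
      · obtain ⟨g1, g2⟩ := h1 x hx
        clear h1 h2
        interval_cases i
        · rcases g1 with g | g <;> exact ⟨_, by omega, g, by simp, by grind⟩
        · exact ⟨2, by omega, by tauto, by simp, by grind⟩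
        · exact ⟨1, by omega, by tauto, by simp, by grind⟩
        · exact ⟨4, by omega, by tauto, by simp, by grind⟩
        · exact ⟨3, by omega, by tauto, by simp, by grind⟩
      · obtain ⟨g1, g2, g3, -⟩ := h2 x hx
        clear h1 h2
        by_cases hi' : i < 4
        · rcases g3 with g | g <;> exact ⟨_, by omega, g, by grind, by grind⟩
        · rcases g2 with g | g <;> exact ⟨_, by omega, g, by grind, by grind⟩
    refine ⟨fun ⟨a, x, i⟩ hv hd => ?_, fun ⟨a, x, i⟩ hu du ⟨b, y, k'⟩ hv dv ne => ?_⟩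
    · obtain ⟨l, g1, g2, g3, -⟩ := k a x i hv hd
      exact ⟨_, g1, g2, g3⟩
    · obtain ⟨l, g1, g2, g3, g4⟩ := k a x i hu du
      by_contra! hc
      have s : ∀ x i, (0, x, i) ∈ vs φ → i ≠ 0 →
          ¬∀ w ∈ vs φ, d w → (A φ (0, x, i) w ↔ A φ (0, x, 0) w) := by
        intro x i hv hi h
        have hx : x < nv φ + 8 := by rw [mem_vs] at hv; omega
        obtain ⟨g1, g2⟩ := h1 x hx
        have e1 := h (0, x, 1) (mem_vs.2 (by omega))
        have e2 := h (0, x, 2) (mem_vs.2 (by omega))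
        have e3 := h (0, x, 3) (mem_vs.2 (by omega))
        have e4 := h (0, x, 4) (mem_vs.2 (by omega))
        simp only [A, ad, decide_eq_true_eq, ne_eq, Prod.mk.injEq] at e1 e2 e3 e4
        grind
      have t : ∀ j a b, j < φ.length + 2 → a < 2 → 2 ≤ b → b < 4 → ¬d (1, j, a) → ¬d (1, j, b) →
          ¬∀ w ∈ vs φ, d w → (A φ (1, j, a) w ↔ A φ (1, j, b) w) := by
        intro j a b hj ha hb hb' da db h
        obtain ⟨b, rfl⟩ : ∃ c, b = c + 2 := ⟨b - 2, by omega⟩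
        rcases (h2 j hj).2.2.2 a ha b (by omega) with g | g | ⟨x, hx, g⟩
        · exact da g
        · exact db g
        · have := h (0, x, 0) (mem_vs.2 (Or.inl ⟨rfl, cv_lt hx, by omega⟩)) g
          simp [A, ad, hx, ha] at this
      rcases g4 b y k' hv dv ((hc _ g1 g2).1 g3) with g | ⟨rfl, rfl, rfl, rfl | rfl⟩ |
        ⟨rfl, rfl, rfl, g | g⟩
      · exact ne g.symm
      · exact s x k' hv (fun e => ne (by rw [e])) fun w a b => (hc w a b).symm
      · exact s x i hu (fun e => ne (by rw [e])) hc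
      · exact t x i k' (by rw [mem_vs] at hv; omega) g.1 g.2.1 g.2.2 du dv hc
      · exact t x k' i (by rw [mem_vs] at hv; omega) g.1 g.2.1 g.2.2 dv du
          fun w a b => (hc w a b).symm

theorem small {φ : List Cl} {d : Cl → Prop} (h : ¬T φ d) :
    ∃ B : List Cl, B.length ≤ 6 ∧ (∀ v ∈ B, ¬d v) ∧ ∀ d', T φ d' → ∃ v ∈ B, d' v := by
  by_contra! hc
  refine h ⟨fun x hx => ⟨?_, ?_⟩, fun j hj => ⟨?_, ?_, ?_, fun a ha b hb => ?_⟩⟩ <;> by_contra! g
  · obtain ⟨d', t, u⟩ := hc [(0, x, 1), (0, x, 2)] (by simp) (by simpa using g)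
    have := (t.1 x hx).1; simp at u; tauto
  · obtain ⟨d', t, u⟩ := hc [(0, x, 3), (0, x, 4)] (by simp) (by simpa using g)
    have := (t.1 x hx).2; simp at u; tauto
  · obtain ⟨d', t, u⟩ := hc [(1, j, 0), (1, j, 1)] (by simp) (by simpa using g)
    have := (t.2 j hj).1; simp at u; tauto
  · obtain ⟨d', t, u⟩ := hc [(1, j, 2), (1, j, 3)] (by simp) (by simpa using g)
    have := (t.2 j hj).2.1; simp at u; tauto
  · obtain ⟨d', t, u⟩ := hc [(1, j, 4), (1, j, 5)] (by simp) (by simpa using g)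
    have := (t.2 j hj).2.2.1; simp at u; tauto
  · obtain ⟨d', t, u⟩ := hc ((1, j, a) :: (1, j, b + 2) :: (cv φ j).map fun x => (0, x, 0))
      (by have := (cv_len φ j).1; simp; omega) (by simpa using g)
    have := (t.2 j hj).2.2.2 a ha b hb
    simp at u
    grind

theorem two {φ : List Cl} {d d' : Cl → Prop} (h : T φ d) (h' : T φ d') (dj : ∀ v, d v → ¬d' v) :
    NAE3 φ := by
  classical
  have k : ∀ {d d' : Cl → Prop}, T φ d → T φ d' → (∀ v, d v → ¬d' v) → ∀ j < φ.length + 2,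
      ∃ x ∈ cv φ j, d (0, x, 0) := by
    intro d d' h h' dj j hj
    obtain ⟨g1, g2, -, -⟩ := h'.2 j hj
    have g := (h.2 j hj).2.2.2
    have := g 0 (by omega) 0 (by omega)
    have := g 0 (by omega) 1 (by omega)
    have := g 1 (by omega) 0 (by omega)
    have := g 1 (by omega) 1 (by omega)
    grind
  refine ⟨fun x => decide (d (0, x + 8, 0)), fun c hc => ?_⟩
  obtain ⟨n, hn, rfl⟩ := List.getElem_of_mem hc
  have k1 := k h h' dj (n + 2) (by omega)
  have k2 := k h' h (fun v a b => dj v b a) (n + 2) (by omega)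
  simp [cv, hn] at k1 k2
  grind

theorem sound {φ : List Cl} (h : CLge (lg (vs φ) (ad φ)) 8) : NAE3 φ := by
  classical
  obtain ⟨m, c, hm, -, h1, h2⟩ := h
  let d : Fin m → Cl → Prop := fun i v => ∃ h, c ⟨v, h⟩ = i
  have e0 : ∀ i, {v | c v = i} = {v | d i v.1} := fun i => by ext v; simp [d, v.2]
  have e1 : ∀ i, ¬T φ (d i) := fun i t => h1 i (e0 i ▸ (key φ _).2 t)
  choose g g1 g2 using h2
  have e2 : ∀ i, T φ fun v => d i v ∨ d (g i) v := fun i =>
    (key φ _).1 (by have := g2 i; rwa [e0, e0] at this)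
  by_contra hn
  have e3 : ∀ i j, i = j ∨ i = g j ∨ g i = j ∨ g i = g j := by
    intro i j
    by_contra! hc
    exact hn (two (e2 i) (e2 j) (by simp only [d]; grind))
  obtain ⟨z, hz⟩ : ∃ z, ∀ i, i ≠ z → T φ fun v => d i v ∨ d z v := by
    let o : Fin m := ⟨0, by omega⟩
    by_cases q : ∀ i, i ≠ o → i ≠ g o → g i = o
    · refine ⟨o, fun i hi => ?_⟩
      by_cases e : i = g o
      · simpa [e, or_comm] using e2 o
      · simpa [q i hi e] using e2 i
    · push Not at q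
      obtain ⟨i, a1, a2, a3⟩ := q
      refine ⟨g o, fun j hj => ?_⟩
      by_cases e : g j = g o
      · simpa [e] using e2 j
      · exfalso
        have b1 := e3 i o
        have b2 := e3 j o
        have b3 := e3 i j
        have all : ∀ l, l = i ∨ l = o ∨ l = g o := by
          intro l
          have := e3 l o
          have := e3 l i
          have := e3 l j
          grind
        have := Finset.card_le_card (show Finset.univ ⊆ ({i, o, g o} : Finset (Fin m)) by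
          intro l _; simpa using all l)
        have := Finset.card_le_three (a := i) (b := o) (c := g o)
        simp at *
        omega
  obtain ⟨B, b1, b2, b3⟩ := small (e1 z)
  have : Finset.univ.erase z ⊆
      (B.map fun v => if h : v ∈ vs φ then c ⟨v, h⟩ else z).toFinset := by
    intro i hi
    obtain ⟨v, hv, ⟨h, e⟩ | e⟩ := b3 _ (hz i (by simpa using hi))
    · simp only [List.mem_toFinset, List.mem_map]
      exact ⟨v, hv, by simp [h, e]⟩
    · exact (b2 v hv e).elim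
  have := (Finset.card_le_card this).trans (List.toFinset_card_le _)
  simp at this
  omega

theorem complete {φ : List Cl} (h : NAE3 φ) : CLge (lg (vs φ) (ad φ)) 8 := by
  obtain ⟨σ, hσ⟩ := h
  let c : Cl → ℕ := fun v => if v.1 = 0 ∧ v.2.2 = 0 then
    (if v.2.1 = 0 then 1 else if v.2.1 < 4 then v.2.1 + 1 else if v.2.1 = 4 then 0 else
      if v.2.1 < 8 then v.2.1 else if σ (v.2.1 - 8) then 0 else 1) else v.2.2 % 2
  have lt : ∀ v, c v < 8 := fun v => by simp only [c]; split_ifs <;> omega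
  have t : ∀ i < 2, ∀ k, (i = 0 → 2 ≤ k ∧ k ≤ 4) → (i = 1 → 5 ≤ k ∧ k ≤ 7) →
      T φ fun v => c v = i ∨ c v = k := by
    intro i hi k k0 k1
    refine ⟨fun x _ => by simp [c]; omega, fun j hj => ⟨by simp [c]; omega, by simp [c]; omega,
      by simp [c]; omega, fun a _ b _ => Or.inr (Or.inr ?_)⟩⟩
    unfold cv
    split_ifs with j0 j1
    · simp [c]; omega
    · simp [c]; omega
    · have hj' : j - 2 < φ.length := by omega
      have := hσ _ (List.getElem_mem hj')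
      rw [List.getD_eq_getElem _ _ hj']
      simp [c]
      grind
  have u : ∀ i k : Fin 8, (T φ fun v => c v = i ∨ c v = k) → IsLD (lg (vs φ) (ad φ))
      ({v | (⟨c v.1, lt _⟩ : Fin 8) = i} ∪ {v | (⟨c v.1, lt _⟩ : Fin 8) = k}) := by
    intro i k h
    simpa [Set.setOf_or, Fin.ext_iff] using (key φ _).2 h
  refine ⟨8, fun v => ⟨c v.1, lt _⟩, le_rfl, fun i => ?_, fun i hi => ?_, fun i => ?_⟩
  · refine ⟨⟨(0, if i.1 = 0 then 4 else if i.1 = 1 then 0 else if i.1 < 5 then i.1 - 1 else i.1, 0),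
      mem_vs.2 (Or.inl ⟨rfl, by split_ifs <;> omega, by omega⟩)⟩, ?_⟩
    fin_cases i <;> simp [c]
  · have hi : T φ fun v => c v = i := (key φ _).1 (by simpa [Fin.ext_iff] using hi)
    have h0 := (hi.2 0 (by omega)).2.2.2 1 (by omega) 1 (by omega)
    have h1 := (hi.2 1 (by omega)).2.2.2 0 (by omega) 0 (by omega)
    have h2 := (hi.1 0 (by omega)).1
    simp [c, cv] at h0 h1 h2
    omega
  · by_cases i0 : i = 0
    · exact ⟨2, by rw [i0]; decide, u _ _ (i0 ▸ t 0 (by omega) 2 (by omega) (by omega))⟩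
    by_cases i1 : i = 1
    · exact ⟨5, by rw [i1]; decide, u _ _ (i1 ▸ t 1 (by omega) 5 (by omega) (by omega))⟩
    by_cases i4 : i.1 ≤ 4
    · exact ⟨0, Ne.symm i0, u _ _ (by
        simpa only [or_comm] using t ((0 : Fin 8) : ℕ) (by omega) i (by omega) (by omega))⟩
    · exact ⟨1, Ne.symm i1, u _ _ (by
        simpa only [or_comm] using t ((1 : Fin 8) : ℕ) (by omega) i (by omega) (by omega))⟩

theorem conn (φ : List Cl) : (lg (vs φ) (ad φ)).Connected := by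
  let o : {v // v ∈ vs φ} := ⟨(0, 0, 0), mem_vs.2 (by omega)⟩
  have h0 : ∀ x h, (lg (vs φ) (ad φ)).Reachable ⟨(0, x, 0), h⟩ o := by
    intro x h
    by_cases e : x = 0
    · subst e; rfl
    · exact Adj.reachable (by simp [lg_adj, ad, o, e])
  have h1 : ∀ j i h, i < 2 → (lg (vs φ) (ad φ)).Reachable ⟨(1, j, i), h⟩ o := by
    intro j i h hi
    obtain ⟨x, hx⟩ := (cv_len φ j).2
    exact (Adj.reachable (by simp [lg_adj, ad, hi, hx])).trans
      (h0 x (mem_vs.2 (Or.inl ⟨rfl, cv_lt hx, by omega⟩)))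
  have h2 : ∀ j i h, 4 ≤ i → (lg (vs φ) (ad φ)).Reachable ⟨(1, j, i), h⟩ o := by
    intro j i h hi
    exact (Adj.reachable (by simp [lg_adj, ad, hi]; omega)).trans
      (h1 j 0 (by rw [mem_vs] at *; omega) (by omega))
  have : Nonempty {v // v ∈ vs φ} := ⟨o⟩
  suffices ∀ v, (lg (vs φ) (ad φ)).Reachable v o from ⟨fun u v => (this u).trans (this v).symm⟩
  rintro ⟨⟨a, x, i⟩, h⟩
  rcases mem_vs.1 h with ⟨rfl, hx, hi⟩ | ⟨rfl, hx, hi⟩
  · by_cases e : i = 0
    · subst e; exact h0 _ _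
    · exact (Adj.reachable (by simp [lg_adj, ad, e])).trans (h0 x (mem_vs.2 (by omega)))
  · by_cases e : 4 ≤ i
    · exact h2 _ _ _ e
    · exact (Adj.reachable (by simp [lg_adj, ad]; omega)).trans
        (h2 x 4 (mem_vs.2 (by omega)) le_rfl)

theorem result :
    (∀ L : List Bool → Prop, InNP L → ∃ f : List Bool → ℕ × List (ℕ × ℕ), PolyTime id bits f ∧
      ∀ x, (gr (f x).1 (f x).2).Connected ∧ (L x ↔ CLge (gr (f x).1 (f x).2) 8)) ∧
    NPHard fun y : (ℕ × List (ℕ × ℕ)) × ℕ =>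
      (gr y.1.1 y.1.2).Connected ∧ CLge (gr y.1.1 y.1.2) y.2 := by
  have hv : PT vs := by unfold vs nv; fun_prop
  have h : HardFor InNP (fun y : ℕ × List (ℕ × ℕ) => (gr y.1 y.2).Connected)
      fun y => CLge (gr y.1 y.2) 8 := by
    refine hard_NAE3.hardFor.red (fun φ => ((vs φ).length, mkE (vs φ) (ad φ)))
      (PT.pair hv.length (PT.mkE hv (by unfold ad cv; fun_prop))) fun φ _ => ?_
    obtain ⟨e⟩ := rep (vs φ) (nd φ) (ad φ)
    exact ⟨e.connected_iff.2 (conn φ), fun h => cl_iso e (complete h),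
      fun h => sound (cl_iso e.symm h)⟩
  refine ⟨fun L hL => ?_, (h.red (fun y => (y, 8)) (by fun_prop) fun y hy => ⟨hy, Iff.rfl⟩).npHard⟩
  obtain ⟨f, hf, e⟩ := h L hL
  exact ⟨f, hf.polyTime_raw, e⟩

end Pool.Agent.Results.MP_722fe9_lc.Hard
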